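import Mathlib
import Pool.Agent.Results.MP_1fec7a_co.DisproofQ1
import Pool.Agent.H46Z.Cube

/-!
# Disproof of Q2

The definitions of rotation systems, genus, incidence graph, reduced genus and of Heawood's function
are those of `DisproofQ1`. The counterexample is the line graph of the cube with one subdivided edge:
it is clique partitioned, has reduced genus 0, clique number 3 and chromatic number 4 (the subdivided
cube has 9 vertices and 13 edges, while a matching has at most 4 edges).
-/

set_option autoImplicit false

namespace Pool.Agent.Results.MP_1fec7a_co.DisproofQ2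

open SimpleGraph Pool.Agent.Results.MP_1fec7a_co.DisproofQ1

/-- A simple graph is clique partitioned if any two different maximal cliques have at most one
common vertex. -/
def CliquePartitioned {V : Type} (G : SimpleGraph V) : Prop :=
  ∀ s t : Set V, Maximal G.IsClique s → Maximal G.IsClique t → s ≠ t → (s ∩ t).Subsingleton

/-- It is not true that every clique partitioned simple graph `G` of reduced genus `g` satisfies
`χ(G) ≤ max (H(g) - 1) ω(G)`. -/
theorem result : ¬ ∀ (g : ℕ) (V : Type) (_ : Finite V) (G : SimpleGraph V), CliquePartitioned G →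
    HasReducedGenus G g →
    (ENat.toNat G.chromaticNumber : ℝ) ≤ max (heawood g - 1) (G.cliqueNum : ℝ) := by
  intro h
  have hcp : CliquePartitioned H46Z.Cube.G1 := by
    intro s t hs ht hst u hu v hv
    by_contra huv
    exact hst ((H46Z.Cube.maximal_eq s hs u v huv hu.1 hv.1).trans
      (H46Z.Cube.maximal_eq t ht u v huv hu.2 hv.2).symm)
  have h1 := h 0 _ inferInstance H46Z.Cube.G1 hcp H46Z.Cube.reduced0
  have h2 : (4 : ℝ) ≤ (ENat.toNat H46Z.Cube.G1.chromaticNumber : ℝ) := by
    exact_mod_cast H46Z.Cube.chromatic_ge4
  have h3 : (H46Z.Cube.G1.cliqueNum : ℝ) ≤ 3 := by exact_mod_cast H46Z.Cube.cliqueNum_le3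
  have h4 : heawood 0 = 4 := by
    unfold heawood
    norm_num
  rcases le_max_iff.mp h1 with h5 | h5 <;> linarith

end Pool.Agent.Results.MP_1fec7a_co.DisproofQ2
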